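import Pool.Agent.L5helper15.MP.Near

set_option autoImplicit false

/-! # The number of exceptional pairs near powers -/

namespace Pool.Agent.L5helper15.MP

open Finset Filter
open Pool.Agent.N741.PB (Pair ISol)
open Pool.Agent.L5helper15.NL (ChunkAt pair_mono chunk)

theorem ev_exp {α β : ℝ} (h : α < β) (K : ℝ) :
    ∀ᶠ t : ℝ in atTop, K * (t + 1) ^ 2 * Real.exp (α * t) ≤ Real.exp (β * t) := by
  have h1 := (isLittleO_pow_exp_pos_mul_atTop 2 (show 0 < β - α by linarith)).bound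
    (show (0 : ℝ) < 1 / (4 * (|K| + 1)) by positivity)
  filter_upwards [h1, eventually_ge_atTop (1 : ℝ)] with t h2 h3
  rw [Real.norm_of_nonneg (by positivity), Real.norm_of_nonneg (by positivity)] at h2
  have h4 : K * (t + 1) ^ 2 ≤ Real.exp ((β - α) * t) := by
    have e1 : (t + 1) ^ 2 ≤ 4 * t ^ 2 := by nlinarith
    have e2 : K * (t + 1) ^ 2 ≤ |K| * (4 * t ^ 2) := by
      calc K * (t + 1) ^ 2 ≤ |K| * (t + 1) ^ 2 := by
            gcongr
            exact le_abs_self K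
        _ ≤ _ := by gcongr
    have hK : 0 ≤ |K| := abs_nonneg K
    calc K * (t + 1) ^ 2 ≤ |K| * (4 * t ^ 2) := e2
      _ ≤ |K| * (4 * (1 / (4 * (|K| + 1)) * Real.exp ((β - α) * t))) := by gcongr
      _ = (|K| / (|K| + 1)) * Real.exp ((β - α) * t) := by field_simp
      _ ≤ 1 * Real.exp ((β - α) * t) := by
          gcongr
          rw [div_le_one (by positivity)]; linarith
      _ = _ := one_mul _
  calc K * (t + 1) ^ 2 * Real.exp (α * t) ≤ Real.exp ((β - α) * t) * Real.exp (α * t) := by gcongr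
    _ = Real.exp (β * t) := by rw [← Real.exp_add]; congr 1; ring

theorem exp_rpow (x y : ℝ) : Real.exp x ^ y = Real.exp (x * y) := (Real.exp_mul x y).symm

/-- **the number of exceptional pairs near powers** -/
theorem count : ∃ κ η ρ : ℝ, 0 < κ ∧ 0 < η ∧ 0 < ρ ∧ ∀ a : ℝ, 0 < a → ∀ U : ℕ, ∃ m₀ : ℕ,
    ∀ m n : ℕ, m₀ ≤ m → n ≤ m → ∀ P : Finset (ℤ × ℤ),
      (∀ v ∈ P, NearPow (Real.exp a) (Real.exp ((1 + η) * a)) U n m
        (Real.exp ((2 * Real.exp ((1 + η) * a) ^ m) ^ κ)) v.1 v.2) →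
      (P.card : ℝ) ≤ Real.exp ((1 - ρ) * a * m) := by
  obtain ⟨k, hk0, hk4, hnear⟩ := near_count
  obtain ⟨c, hc0, hc1, B₀, hch⟩ := chunk
  obtain ⟨η, hη⟩ : ∃ η : ℝ, η = k / 64 := ⟨_, rfl⟩
  obtain ⟨ρ, hρ⟩ : ∃ ρ : ℝ, ρ = k / 128 := ⟨_, rfl⟩
  obtain ⟨κ, hκ⟩ : ∃ κ : ℝ, κ = c * k / 32 := ⟨_, rfl⟩
  have hck : 0 < c * k := by positivity
  have hck' : c * k ≤ k := by nlinarith
  have hη0 : 0 < η := by rw [hη]; positivity
  have hρ0 : 0 < ρ := by rw [hρ]; positivity
  have hκ0 : 0 < κ := by rw [hκ]; positivity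
  refine ⟨κ, η, ρ, hκ0, hη0, hρ0, fun a ha U => ?_⟩
  obtain ⟨N₀, hN₀⟩ := hnear U
  obtain ⟨g, hg⟩ : ∃ g : ℝ, g = (1 + η) * a := ⟨_, rfl⟩
  have hg0 : 0 < g := by rw [hg]; positivity
  have hga : a ≤ g := by rw [hg]; nlinarith
  have hga2 : g ≤ 2 * a := by rw [hg]; nlinarith
  have hU0 : (0 : ℝ) ≤ U := Nat.cast_nonneg U
  -- exponents
  have x1 : g * κ < a / 2 * k := by
    have : g * κ ≤ 2 * a * κ := by gcongr
    have h2 : 2 * a * κ ≤ a * k / 16 := by rw [hκ]; nlinarith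
    have : 0 < a * k := by positivity
    linarith
  have x2 : g * (1 - k) < (1 - ρ) * a := by
    rw [hg, hη, hρ]
    have : 0 < a * k := by positivity
    nlinarith
  have x3 : g * κ < g * (k / 8) * c := by
    rw [hκ]
    have : 0 < g * (c * k) := by positivity
    nlinarith
  have x4 : g * (1 - k / 32) < (1 - ρ) * a := by
    rw [hg, hη, hρ]
    have : 0 < a * k := by positivity
    nlinarith
  have x5 : 0 < g * (k / 8) * c := by positivity
  have hev : ∀ᶠ t : ℝ in atTop, 1 ≤ t ∧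
      (|N₀| + U + 1) * (t + 1) ^ 2 * Real.exp (0 * t) ≤ Real.exp ((a / 2) * t) ∧
      (2 ^ κ * 4 ^ k) * (t + 1) ^ 2 * Real.exp ((g * κ) * t) ≤ Real.exp ((a / 2 * k) * t) ∧
      ((3 * (1 + g) + 1) * 2 * 2) * (t + 1) ^ 2 * Real.exp ((g * (1 - k)) * t) ≤ Real.exp (((1 - ρ) * a) * t) ∧
      (B₀ : ℝ) * (t + 1) ^ 2 * Real.exp (0 * t) ≤ Real.exp ((g * (k / 8)) * t) ∧
      (2 ^ κ) * (t + 1) ^ 2 * Real.exp ((g * κ) * t) ≤ Real.exp ((g * (k / 8) * c) * t) ∧
      (g + U + 7 + 2) * (t + 1) ^ 2 * Real.exp (0 * t) ≤ Real.exp ((g * (k / 8) * c) * t) ∧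
      (2 * Real.exp g * (2 * U + 5) * (U + 3)) * (t + 1) ^ 2 * Real.exp ((g * (1 - k / 32)) * t) ≤
        Real.exp (((1 - ρ) * a) * t) ∧
      (U : ℝ) * (t + 1) ^ 2 * Real.exp (0 * t) ≤ Real.exp (g * t) := by
    filter_upwards [eventually_ge_atTop (1 : ℝ), ev_exp (show (0 : ℝ) < a / 2 by positivity) (|N₀| + U + 1),
      ev_exp x1 (2 ^ κ * 4 ^ k), ev_exp x2 ((3 * (1 + g) + 1) * 2 * 2),
      ev_exp (show 0 < g * (k / 8) by positivity) B₀, ev_exp x3 (2 ^ κ),
      ev_exp x5 (g + U + 7 + 2), ev_exp x4 (2 * Real.exp g * (2 * U + 5) * (U + 3)), ev_exp hg0 U]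
      with t h1 h2 h3 h4 h5 h6 h7 h8 h9
    exact ⟨h1, h2, h3, h4, h5, h6, h7, h8, h9⟩
  obtain ⟨t₀, ht₀⟩ := eventually_atTop.mp hev
  refine ⟨⌈t₀⌉₊ + 1, fun m n hm hnm P hP => ?_⟩
  have hmt : t₀ ≤ m := (Nat.le_ceil t₀).trans (by exact_mod_cast (by omega : ⌈t₀⌉₊ ≤ m))
  obtain ⟨h1, h2, h3, h4, h5, h6, h7, h8, h9⟩ := ht₀ m hmt
  rw [← hg] at hP
  have hm1 : (1 : ℝ) ≤ (m : ℝ) := h1
  have hm2 : (1 : ℝ) ≤ ((m : ℝ) + 1) ^ 2 := by nlinarith
  have hm3 : (m : ℝ) + 1 ≤ ((m : ℝ) + 1) ^ 2 := by nlinarith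
  simp only [zero_mul, Real.exp_zero, mul_one] at h2 h5 h7 h9
  have hN0abs := abs_nonneg N₀
  have hAm : |N₀| + U + 1 ≤ Real.exp ((a / 2) * m) := le_trans (le_mul_of_one_le_right (by positivity) hm2) h2
  have hUm : (U : ℝ) ≤ Real.exp (g * m) := le_trans (le_mul_of_one_le_right (by positivity) hm2) h9
  have epow : ∀ (x : ℝ) (j : ℕ), Real.exp x ^ j = Real.exp (x * j) := by
    intro x j; rw [← Real.exp_nat_mul]; congr 1; ring
  have hbm : Real.exp g ^ m = Real.exp (g * m) := epow g m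
  have hb1 : 1 ≤ Real.exp g := Real.one_le_exp hg0.le
  have hA1 : 1 ≤ Real.exp a := Real.one_le_exp ha.le
  have hAb : Real.exp a ≤ Real.exp g := Real.exp_le_exp.mpr hga
  have hnmR : (n : ℝ) ≤ m := by exact_mod_cast hnm
  have hn0 : (0 : ℝ) ≤ n := Nat.cast_nonneg n
  have hWval : (2 * Real.exp g ^ m) ^ κ = 2 ^ κ * Real.exp ((g * κ) * m) := by
    rw [Real.mul_rpow (by norm_num) (by positivity), hbm, exp_rpow]
    congr 2; ring
  by_cases hcase : (m : ℝ) ≤ (1 + k / 4) * n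
  · -- near
    have hn1 : 1 ≤ n := by
      rcases Nat.eq_zero_or_pos n with h0 | h0
      · rw [h0] at hcase; simp at hcase; linarith
      · exact h0
    have hn2 : (m : ℝ) / 2 ≤ n := by nlinarith
    have hAn : Real.exp ((a / 2) * m) ≤ Real.exp a ^ n := by
      rw [epow]
      apply Real.exp_le_exp.mpr
      nlinarith
    have hcount := hN₀ (Real.exp a) (Real.exp g) n m (Real.exp ((2 * Real.exp g ^ m) ^ κ)) hA1 hAb hn1 hnm
      hcase (by
        have := le_abs_self N₀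
        linarith) (by
        apply Real.exp_le_exp.mpr
        rw [hWval]
        have e1 : (Real.exp ((a / 2) * m) / 4) ^ k ≤ (Real.exp a ^ n / 4) ^ k := by
          apply Real.rpow_le_rpow (by positivity) _ hk0.le
          gcongr
        refine le_trans ?_ e1
        rw [Real.div_rpow (by positivity) (by norm_num), exp_rpow, le_div_iff₀ (by positivity)]
        have e2 : a / 2 * m * k = (a / 2 * k) * m := by ring
        rw [e2]
        refine le_trans ?_ h3
        calc 2 ^ κ * Real.exp (g * κ * m) * 4 ^ k = (2 ^ κ * 4 ^ k) * 1 * Real.exp (g * κ * m) := by ring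
          _ ≤ _ := by gcongr) P hP
    refine hcount.trans (le_trans ?_ (le_of_eq (show Real.exp (((1 - ρ) * a) * m) = _ by rfl)))
    refine le_trans ?_ h4
    have hbn : Real.exp g ^ n ≤ Real.exp (g * m) := by
      rw [← hbm]; exact pow_le_pow_right₀ hb1 hnm
    have hsum : Real.exp g ^ n + U ≤ 2 * Real.exp (g * m) := by linarith
    have hsum0 : (1 : ℝ) ≤ Real.exp g ^ n + U := by
      have := one_le_pow₀ (n := n) hb1
      linarith
    have hlog : ((Nat.log 2 ⌊Real.exp g ^ n + U⌋₊ : ℕ) : ℝ) ≤ 3 * ((1 + g) * (m + 1)) := by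
      have hfl : 1 ≤ ⌊Real.exp g ^ n + U⌋₊ := Nat.le_floor (by exact_mod_cast hsum0)
      have e1 := Nat.pow_log_le_self 2 (x := ⌊Real.exp g ^ n + U⌋₊) (by omega)
      have e2 : ((2 : ℝ)) ^ (Nat.log 2 ⌊Real.exp g ^ n + U⌋₊) ≤ 2 * Real.exp (g * m) := by
        have e3 : (((2 ^ (Nat.log 2 ⌊Real.exp g ^ n + U⌋₊) : ℕ)) : ℝ) ≤ ((⌊Real.exp g ^ n + U⌋₊ : ℕ) : ℝ) := by
          exact_mod_cast e1
        have e4 : ((⌊Real.exp g ^ n + U⌋₊ : ℕ) : ℝ) ≤ Real.exp g ^ n + U := Nat.floor_le (by linarith)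
        push_cast at e3
        linarith
      have e5 := Real.log_le_log (by positivity) e2
      rw [Real.log_pow, Real.log_mul (by norm_num) (by positivity), Real.log_exp] at e5
      have l2 : (1 : ℝ) / 2 < Real.log 2 := by have := Real.log_two_gt_d9; linarith
      have l2' : Real.log 2 < 1 := by have := Real.log_two_lt_d9; linarith
      have e6 : (0 : ℝ) ≤ (Nat.log 2 ⌊Real.exp g ^ n + U⌋₊ : ℕ) := Nat.cast_nonneg _
      nlinarith
    have hpow1 : (Real.exp g ^ n + U) ^ (1 - k) ≤ 2 * Real.exp (g * (1 - k) * m) := by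
      calc (Real.exp g ^ n + U) ^ (1 - k) ≤ (2 * Real.exp (g * m)) ^ (1 - k) :=
            Real.rpow_le_rpow (by positivity) hsum (by linarith)
        _ = 2 ^ (1 - k) * Real.exp (g * (1 - k) * m) := by
            rw [Real.mul_rpow (by norm_num) (by positivity), exp_rpow]
            congr 2; ring
        _ ≤ 2 * Real.exp (g * (1 - k) * m) := by
            gcongr
            calc (2 : ℝ) ^ (1 - k) ≤ 2 ^ (1 : ℝ) := Real.rpow_le_rpow_of_exponent_le (by norm_num) (by linarith)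
              _ = 2 := Real.rpow_one _
    calc (((Nat.log 2 ⌊Real.exp g ^ n + U⌋₊ : ℕ) : ℝ) + 1) * (Real.exp g ^ n + U) ^ (1 - k)
        ≤ (3 * ((1 + g) * (m + 1)) + 1) * (2 * Real.exp (g * (1 - k) * m)) := by gcongr
      _ ≤ ((3 * (1 + g) + 1) * 2 * 2) * (m + 1) * Real.exp (g * (1 - k) * m) := by
          have : 3 * ((1 + g) * ((m : ℝ) + 1)) + 1 ≤ (3 * (1 + g) + 1) * 2 * (m + 1) := by nlinarith
          calc _ ≤ ((3 * (1 + g) + 1) * 2 * (m + 1)) * (2 * Real.exp (g * (1 - k) * m)) := by gcongr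
            _ = _ := by ring
      _ ≤ _ := by gcongr
  · -- far
    push Not at hcase
    have hk1 : (0 : ℝ) < 1 + k / 4 := by positivity
    have hlt : n < m := by
      have : (n : ℝ) < m := by nlinarith
      exact_mod_cast this
    have hmn : (k / 8) * m ≤ (m : ℝ) - n := by
      have e1 : (1 + k / 4) * n < m := hcase
      nlinarith
    obtain ⟨r, hr⟩ : ∃ r : ℕ, m = n + r := Nat.exists_eq_add_of_le hnm
    have hrR : (r : ℝ) = m - n := by rw [hr]; push_cast; ring
    obtain ⟨lam, hlam⟩ : ∃ lam : ℝ, lam = 1 / ((n + 1) * Real.exp g ^ n) := ⟨_, rfl⟩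
    have hlam0 : 0 < lam := by rw [hlam]; positivity
    have hlm : lam * (m * Real.exp g ^ m) = (m / (n + 1)) * Real.exp g ^ r := by
      rw [hlam, hr, pow_add]; field_simp
    have hmn1 : (1 : ℝ) ≤ (m : ℝ) / (n + 1) := by
      rw [le_div_iff₀ (by positivity), one_mul]
      exact_mod_cast hlt
    have hmn2 : (m : ℝ) / (n + 1) ≤ m := div_le_self (by positivity) (by linarith)
    have hbr : (1 : ℝ) ≤ Real.exp g ^ r := one_le_pow₀ hb1
    obtain ⟨l, hl⟩ : ∃ l : ℕ, l = ⌈lam * (m * Real.exp g ^ m) + U + 1⌉₊ := ⟨_, rfl⟩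
    have hl1 : lam * (m * Real.exp g ^ m) + U + 1 ≤ l := by rw [hl]; exact Nat.le_ceil _
    have hl2 : (l : ℝ) ≤ lam * (m * Real.exp g ^ m) + U + 1 + 1 := by
      rw [hl]; exact (Nat.ceil_lt_add_one (by positivity)).le
    have hl3 : (l : ℝ) ≤ (U + 3) * m * Real.exp g ^ r := by
      rw [hlm] at hl2
      have e1 : (m : ℝ) / (n + 1) * Real.exp g ^ r ≤ m * Real.exp g ^ r := by gcongr
      have e2 : (1 : ℝ) ≤ m * Real.exp g ^ r := one_le_mul_of_one_le_of_one_le hm1 hbr
      have e3 : (U : ℝ) * 1 ≤ U * (m * Real.exp g ^ r) := by gcongr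
      calc (l : ℝ) ≤ _ := hl2
        _ ≤ m * Real.exp g ^ r + U * (m * Real.exp g ^ r) + 2 * (m * Real.exp g ^ r) := by linarith
        _ = _ := by ring
    have hl4 : Real.exp ((g * (k / 8)) * m) ≤ l := by
      have e1 : Real.exp g ^ r ≤ l := by
        rw [hlm] at hl1
        have q1 : 1 * Real.exp g ^ r ≤ (m : ℝ) / (n + 1) * Real.exp g ^ r := by gcongr
        linarith
      refine le_trans ?_ e1
      rw [epow, hrR]
      apply Real.exp_le_exp.mpr
      have q1 : g * ((k / 8) * m) ≤ g * ((m : ℝ) - n) := by gcongr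
      calc g * (k / 8) * m = g * ((k / 8) * m) := by ring
        _ ≤ _ := q1
    have hl0 : (0 : ℝ) < l := lt_of_lt_of_le (Real.exp_pos _) hl4
    have hlc : Real.exp ((g * (k / 8) * c) * m) ≤ (l : ℝ) ^ c := by
      calc Real.exp ((g * (k / 8) * c) * m) = (Real.exp ((g * (k / 8)) * m)) ^ c := by
            rw [exp_rpow]; congr 1; ring
        _ ≤ _ := Real.rpow_le_rpow (by positivity) hl4 hc0.le
    have hB₀l : B₀ ≤ l := by
      have e1 : (B₀ : ℝ) ≤ Real.exp ((g * (k / 8)) * m) :=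
        le_trans (le_mul_of_one_le_right (Nat.cast_nonneg _) hm2) h5
      exact_mod_cast e1.trans hl4
    have hbig : Real.exp g ^ m + 1 + l + U + 3 ≤ Real.exp ((l : ℝ) ^ c) := by
      have e1 : (g + U + 7 + 2) * (m + 1) ^ 2 ≤ (l : ℝ) ^ c := h7.trans hlc
      have e2 : Real.exp g ^ m + 1 + l + U + 3 ≤ (2 * U + 8) * ((m + 1) * Real.exp (g * m)) := by
        have f1 : Real.exp g ^ r ≤ Real.exp (g * m) := by
          rw [← hbm]; exact pow_le_pow_right₀ hb1 (by omega)
        have f2 : (l : ℝ) ≤ (U + 3) * ((m + 1) * Real.exp (g * m)) := by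
          calc (l : ℝ) ≤ (U + 3) * m * Real.exp g ^ r := hl3
            _ ≤ (U + 3) * (m + 1) * Real.exp (g * m) := by gcongr; linarith
            _ = _ := by ring
        have f3 : (1 : ℝ) ≤ Real.exp (g * m) := Real.one_le_exp (by positivity)
        have f4 : 1 * Real.exp (g * m) ≤ (m + 1) * Real.exp (g * m) := by
          gcongr
          linarith
        have f5 : (U : ℝ) * 1 ≤ U * ((m + 1) * Real.exp (g * m)) := by
          gcongr
          linarith
        rw [hbm]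
        calc Real.exp (g * m) + 1 + l + U + 3 ≤ (m + 1) * Real.exp (g * m) + (m + 1) * Real.exp (g * m) +
            (U + 3) * ((m + 1) * Real.exp (g * m)) + U * ((m + 1) * Real.exp (g * m)) +
            3 * ((m + 1) * Real.exp (g * m)) := by linarith
          _ = (2 * U + 8) * ((m + 1) * Real.exp (g * m)) := by ring
      have e3 : (2 * (U : ℝ) + 8) ≤ Real.exp (U + 7) := by
        have f1 := Real.add_one_le_exp ((U : ℝ) / 2 + 7 / 2)
        have f2 : Real.exp ((U : ℝ) / 2 + 7 / 2) ^ 2 = Real.exp (U + 7) := by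
          rw [← Real.exp_nat_mul]; congr 1; push_cast; ring
        rw [← f2]
        nlinarith
      have e4 : ((m : ℝ) + 1) ≤ Real.exp (m) := Real.add_one_le_exp _
      refine e2.trans ?_
      calc (2 * (U : ℝ) + 8) * ((m + 1) * Real.exp (g * m)) ≤
          Real.exp (U + 7) * (Real.exp m * Real.exp (g * m)) := by gcongr
        _ = Real.exp (((U : ℝ) + 7) + (m + g * m)) := by
            rw [Real.exp_add ((U : ℝ) + 7), Real.exp_add (m : ℝ)]
        _ ≤ Real.exp ((l : ℝ) ^ c) := by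
            apply Real.exp_le_exp.mpr
            refine le_trans ?_ e1
            have q1 : (g + U + 7 + 2) * ((m : ℝ) + 1) ≤ (g + U + 7 + 2) * (m + 1) ^ 2 := by gcongr
            have q2 : 0 ≤ (U : ℝ) * m := by positivity
            refine le_trans ?_ q1
            linarith
    have hfar := far_count (A := Real.exp a) (b := Real.exp g) (U := U) (n := n) (m := m) (l := l)
      (W := Real.exp ((l : ℝ) ^ c)) (lam := lam) (Real.exp_pos a).le hAb hb1 (hch l hB₀l) hlam0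
      (by
        rw [hlam, one_div, inv_mul_le_iff₀ (by positivity), mul_one]
        gcongr
        linarith) hl1 (by
        have : Real.exp g ^ n ≤ Real.exp g ^ m := pow_le_pow_right₀ hb1 hnm
        have : (0 : ℝ) ≤ l := hl0.le
        linarith) (by linarith) P (by
        intro v hv
        obtain ⟨α, b1, b2, b3, b4, b5⟩ := hP v hv
        refine ⟨α, b1, b2, b3, b4, pair_mono b5 (Real.exp_le_exp.mpr ?_)⟩
        rw [hWval]
        refine le_trans ?_ (h6.trans hlc)
        calc 2 ^ κ * Real.exp (g * κ * m) = 2 ^ κ * 1 * Real.exp (g * κ * m) := by ring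
          _ ≤ _ := by gcongr)
    refine hfar.trans (le_trans ?_ h8)
    have e1 : (Real.exp g - Real.exp a) / lam + 1 ≤ 2 * Real.exp g * ((m + 1) * Real.exp g ^ n) := by
      have f1 : (Real.exp g - Real.exp a) / lam = (Real.exp g - Real.exp a) * ((n + 1) * Real.exp g ^ n) := by
        rw [hlam]; field_simp
      rw [f1]
      have f2 : (1 : ℝ) ≤ (m + 1) * Real.exp g ^ n :=
        one_le_mul_of_one_le_of_one_le (by linarith) (one_le_pow₀ hb1)
      have f2' : (1 : ℝ) ≤ Real.exp g * ((m + 1) * Real.exp g ^ n) :=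
        one_le_mul_of_one_le_of_one_le hb1 f2
      have f3 : (n + 1) * Real.exp g ^ n ≤ (m + 1) * Real.exp g ^ n := by gcongr
      have f4 : 0 ≤ (n + 1) * Real.exp g ^ n := by positivity
      have f5 : 0 < Real.exp a := Real.exp_pos a
      have f6 : Real.exp g - Real.exp a ≤ Real.exp g := by linarith
      have f7 : (Real.exp g - Real.exp a) * ((n + 1) * Real.exp g ^ n) ≤
          Real.exp g * ((m + 1) * Real.exp g ^ n) := by
        calc _ ≤ Real.exp g * ((n + 1) * Real.exp g ^ n) := by gcongr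
          _ ≤ _ := by gcongr
      linarith
    have e2 : (l : ℝ) ^ (3 / 4 : ℝ) ≤ (U + 3) * m * Real.exp (g * (3 / 4) * r) := by
      have f1 : (1 : ℝ) ≤ (U + 3) * m := one_le_mul_of_one_le_of_one_le (by linarith) hm1
      calc (l : ℝ) ^ (3 / 4 : ℝ) ≤ ((U + 3) * m * Real.exp g ^ r) ^ (3 / 4 : ℝ) :=
            Real.rpow_le_rpow hl0.le hl3 (by norm_num)
        _ = ((U + 3) * m) ^ (3 / 4 : ℝ) * Real.exp (g * (3 / 4) * r) := by
            rw [Real.mul_rpow (by positivity) (by positivity), epow, exp_rpow]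
            congr 2; ring
        _ ≤ ((U + 3) * m) ^ (1 : ℝ) * Real.exp (g * (3 / 4) * r) :=
            mul_le_mul_of_nonneg_right (Real.rpow_le_rpow_of_exponent_le f1 (by norm_num)) (by positivity)
        _ = _ := by rw [Real.rpow_one]
    have e3 : Real.exp g ^ n * Real.exp (g * (3 / 4) * r) ≤ Real.exp (g * (1 - k / 32) * m) := by
      rw [epow, ← Real.exp_add]
      apply Real.exp_le_exp.mpr
      rw [hrR]
      have q1 : g * ((k / 8) * m) ≤ g * ((m : ℝ) - n) := by gcongr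
      have q2 : g * n + g * (3 / 4) * ((m : ℝ) - n) = g * m - (g * ((m : ℝ) - n)) / 4 := by ring
      have q3 : g * (1 - k / 32) * m = g * m - (g * ((k / 8) * m)) / 4 := by ring
      linarith
    have e4 : (0 : ℝ) ≤ 2 * U + 5 := by positivity
    calc ((Real.exp g - Real.exp a) / lam + 1) * (2 * U + 5) * (l : ℝ) ^ (3 / 4 : ℝ)
        ≤ (2 * Real.exp g * ((m + 1) * Real.exp g ^ n)) * (2 * U + 5) *
            ((U + 3) * m * Real.exp (g * (3 / 4) * r)) := by gcongr
      _ = (2 * Real.exp g * (2 * U + 5) * (U + 3)) * ((m + 1) * m) *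
            (Real.exp g ^ n * Real.exp (g * (3 / 4) * r)) := by ring
      _ ≤ (2 * Real.exp g * (2 * U + 5) * (U + 3)) * (m + 1) ^ 2 * Real.exp (g * (1 - k / 32) * m) := by
          have q1 : ((m : ℝ) + 1) * m ≤ (m + 1) ^ 2 := by
            calc ((m : ℝ) + 1) * m ≤ (m + 1) * (m + 1) := by gcongr; linarith
              _ = (m + 1) ^ 2 := by ring
          gcongr

end Pool.Agent.L5helper15.MP
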