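import Pool.Agent.L5helper15.NL.Main

set_option autoImplicit false

/-! # Bases near powers of a real number: different sizes -/

namespace Pool.Agent.L5helper15.MP

open Finset Filter
open Pool.Agent.N741.PB (Pair ISol)
open Pool.Agent.L5helper15.NL (ChunkAt pair_mono)

theorem pair_symm {R : ℕ} {W : ℝ} {a b : ℤ} (h : Pair R W a b) : Pair R W b a := by
  obtain ⟨c, l, m, k, s, t, h1, h2, h3⟩ := h
  refine ⟨c, m, l, k, s, s * t, ⟨h1.b0, h1.a0, h1.c0, h1.ab.symm, h1.m0, h1.l0, h1.k0, ?_, h1.s1, ?_, ?_⟩,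
    h2, h3⟩
  · have := h1.le
    nlinarith
  · rcases h1.s1 with h | h <;> rcases h1.t1 with h' | h' <;> simp [h, h']
  · have hs : s * s = 1 := by rcases h1.s1 with h | h <;> simp [h]
    linear_combination s * h1.eq - (b ^ m) * hs

/-- the pairs near powers of some `α` in `[A, b]` -/
def NearPow (A b : ℝ) (U n m : ℕ) (W : ℝ) (x y : ℤ) : Prop :=
  ∃ α : ℝ, A ≤ α ∧ α ≤ b ∧ |(x : ℝ) - α ^ n| ≤ U ∧ |(y : ℝ) - α ^ m| ≤ U ∧ Pair 2 W x y

theorem pow_near {b α β : ℝ} (n : ℕ) (hb : 1 ≤ b) (h0 : 0 ≤ α) (h0' : 0 ≤ β) (h1 : α ≤ b) (h2 : β ≤ b) :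
    |α ^ n - β ^ n| ≤ |α - β| * (n * b ^ n) := by
  refine (abs_pow_sub_pow_le α β n).trans ?_
  rw [mul_assoc]
  gcongr
  calc max |α| |β| ^ (n - 1) ≤ b ^ (n - 1) := by
        gcongr
        rw [abs_of_nonneg h0, abs_of_nonneg h0']
        exact max_le h1 h2
    _ ≤ b ^ n := pow_le_pow_right₀ hb (by omega)

theorem far_count {A b : ℝ} {U n m l : ℕ} {W lam : ℝ} (hA : 0 ≤ A) (hbA : A ≤ b) (hb : 1 ≤ b)
    (hch : ChunkAt l W) (hlam : 0 < lam) (hn : lam * (n * b ^ n) ≤ 1)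
    (hm : lam * (m * b ^ m) + U + 1 ≤ l) (hW1 : b ^ n + U + 3 ≤ W) (hW2 : b ^ m + 1 + l ≤ W)
    (P : Finset (ℤ × ℤ)) (hP : ∀ v ∈ P, NearPow A b U n m W v.1 v.2) :
    (P.card : ℝ) ≤ ((b - A) / lam + 1) * (2 * U + 5) * (l : ℝ) ^ (3 / 4 : ℝ) := by
  classical
  set J : Finset (ℕ × ℤ) := range (⌊(b - A) / lam⌋₊ + 1) ×ˢ Icc (-((U : ℤ) + 2)) ((U : ℤ) + 2) with hJ
  set αi : ℕ → ℝ := fun i => A + i * lam with hαi
  set T : ℕ × ℤ → Finset ℤ := fun e => (Icc (-(l : ℤ)) l).filter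
    (fun t => (⌊αi e.1 ^ n⌋ + e.2, ⌊αi e.1 ^ m⌋ + t) ∈ P) with hT
  have hαb : ∀ i ∈ range (⌊(b - A) / lam⌋₊ + 1), 0 ≤ αi i ∧ αi i ≤ b := by
    intro i hi
    rw [mem_range, Nat.lt_succ_iff] at hi
    have h1 : (i : ℝ) ≤ (b - A) / lam := by
      have h2 : ((⌊(b - A) / lam⌋₊ : ℕ) : ℝ) ≤ (b - A) / lam := Nat.floor_le (by
        apply div_nonneg _ hlam.le; linarith)
      have h3 : (i : ℝ) ≤ ⌊(b - A) / lam⌋₊ := by exact_mod_cast hi
      linarith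
    rw [le_div_iff₀ hlam] at h1
    simp only [hαi]
    exact ⟨by positivity, by linarith⟩
  have hcover : P ⊆ J.biUnion (fun e => (T e).image (fun t => (⌊αi e.1 ^ n⌋ + e.2, ⌊αi e.1 ^ m⌋ + t))) := by
    rintro ⟨x, y⟩ hv
    obtain ⟨α, h1, h2, h3, h4, h5⟩ := hP _ hv
    simp only at h3 h4
    set i := ⌊(α - A) / lam⌋₊ with hi
    have hi1 : (i : ℝ) ≤ (α - A) / lam := Nat.floor_le (by apply div_nonneg _ hlam.le; linarith)
    have hi2 : (α - A) / lam < i + 1 := Nat.lt_floor_add_one _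
    rw [le_div_iff₀ hlam] at hi1
    rw [div_lt_iff₀ hlam] at hi2
    have hiJ : i ∈ range (⌊(b - A) / lam⌋₊ + 1) := by
      rw [mem_range, Nat.lt_succ_iff]
      exact Nat.floor_le_floor (by gcongr)
    have hd : |α - αi i| ≤ lam := by
      simp only [hαi]
      rw [abs_le]
      constructor <;> nlinarith
    obtain ⟨g0, g1⟩ := hαb i hiJ
    have hα0 : 0 ≤ α := hA.trans h1
    have e1 : |α ^ n - αi i ^ n| ≤ 1 := by
      refine (pow_near n hb hα0 g0 h2 g1).trans (le_trans ?_ hn)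
      gcongr
    have e2 : |α ^ m - αi i ^ m| ≤ lam * (m * b ^ m) := by
      refine (pow_near m hb hα0 g0 h2 g1).trans ?_
      gcongr
    have f1 := Int.floor_le (αi i ^ n)
    have f2 := Int.lt_floor_add_one (αi i ^ n)
    have f3 := Int.floor_le (αi i ^ m)
    have f4 := Int.lt_floor_add_one (αi i ^ m)
    obtain ⟨a1, a2⟩ := abs_le.mp h3
    obtain ⟨a3, a4⟩ := abs_le.mp h4
    obtain ⟨a5, a6⟩ := abs_le.mp e1
    obtain ⟨a7, a8⟩ := abs_le.mp e2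
    rw [mem_biUnion]
    refine ⟨(i, x - ⌊αi i ^ n⌋), ?_, ?_⟩
    · rw [hJ, mem_product, mem_Icc]
      refine ⟨hiJ, ?_, ?_⟩
      · have : (-((U : ℝ) + 2)) ≤ x - ⌊αi i ^ n⌋ := by linarith
        exact_mod_cast this
      · have : (x : ℝ) - ⌊αi i ^ n⌋ ≤ (U : ℝ) + 2 := by linarith
        exact_mod_cast this
    · rw [mem_image]
      refine ⟨y - ⌊αi i ^ m⌋, ?_, by simp⟩
      simp only [hT, mem_filter, mem_Icc]
      refine ⟨⟨?_, ?_⟩, ?_⟩
      · have : (-(l : ℝ)) ≤ y - ⌊αi i ^ m⌋ := by linarith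
        exact_mod_cast this
      · have : (y : ℝ) - ⌊αi i ^ m⌋ ≤ (l : ℝ) := by linarith
        exact_mod_cast this
      · simpa using hv
  have hTc : ∀ e ∈ J, (((T e).image (fun t => (⌊αi e.1 ^ n⌋ + e.2, ⌊αi e.1 ^ m⌋ + t))).card : ℝ) ≤
      (l : ℝ) ^ (3 / 4 : ℝ) := by
    rintro ⟨i, d⟩ he
    rw [hJ, mem_product, mem_Icc] at he
    obtain ⟨hi, hd1, hd2⟩ := he
    obtain ⟨g0, g1⟩ := hαb i hi
    simp only at hd1 hd2 g0 g1
    have hc1 : (((T (i, d)).image (fun t => (⌊αi i ^ n⌋ + d, ⌊αi i ^ m⌋ + t))).card : ℝ) ≤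
        ((T (i, d)).card : ℝ) := by exact_mod_cast card_image_le
    refine hc1.trans ?_
    have p1 : αi i ^ n ≤ b ^ n := by gcongr
    have p2 : αi i ^ m ≤ b ^ m := by gcongr
    have p3 : 0 ≤ αi i ^ n := by positivity
    have p4 : 0 ≤ αi i ^ m := by positivity
    have f1 := Int.floor_le (αi i ^ n)
    have f3 := Int.floor_le (αi i ^ m)
    have f1' : (0 : ℝ) ≤ ⌊αi i ^ n⌋ := by exact_mod_cast Int.floor_nonneg.mpr p3
    have f3' : (0 : ℝ) ≤ ⌊αi i ^ m⌋ := by exact_mod_cast Int.floor_nonneg.mpr p4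
    have hd1' : (-((U : ℝ) + 2)) ≤ d := by exact_mod_cast hd1
    have hd2' : (d : ℝ) ≤ (U : ℝ) + 2 := by exact_mod_cast hd2
    apply hch (⌊αi i ^ m⌋) 1 (⌊αi i ^ n⌋ + d) 0 one_pos
    · rw [abs_of_nonneg f3']
      push_cast
      linarith
    · push_cast
      rw [abs_zero, zero_mul, add_zero]
      rw [abs_le]
      constructor <;> linarith
    · intro t ht
      simp only [hT, mem_filter, mem_Icc] at ht
      refine ⟨abs_le.mpr ht.1, ?_⟩
      obtain ⟨α, -, -, -, -, h5⟩ := hP _ ht.2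
      rw [one_mul, zero_mul, add_zero]
      exact pair_symm h5
  have hJc : (J.card : ℝ) ≤ ((b - A) / lam + 1) * (2 * U + 5) := by
    have h1 : J.card = (⌊(b - A) / lam⌋₊ + 1) * (2 * U + 5) := by
      rw [hJ, card_product, card_range, Int.card_Icc]
      congr 1
      omega
    rw [h1]
    push_cast
    have h2 : ((⌊(b - A) / lam⌋₊ : ℕ) : ℝ) ≤ (b - A) / lam := Nat.floor_le (by
      apply div_nonneg _ hlam.le; linarith)
    gcongr
  have h1 : (P.card : ℝ) ≤ ∑ e ∈ J, (((T e).image (fun t => (⌊αi e.1 ^ n⌋ + e.2, ⌊αi e.1 ^ m⌋ + t))).card : ℝ) := by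
    exact_mod_cast (card_le_card hcover).trans card_biUnion_le
  refine h1.trans ((sum_le_sum hTc).trans ?_)
  rw [sum_const, nsmul_eq_mul]
  gcongr

end Pool.Agent.L5helper15.MP
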