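import Mathlib

set_option autoImplicit false

/-! # The measure of the set of `α` with `α ^ m` near a given number -/

namespace Pool.Agent.L5helper15.MP

open MeasureTheory Set

theorem vol_near {A : ℝ} (hA : 1 ≤ A) {m : ℕ} (hm : 1 ≤ m) (U : ℕ) (y : ℝ) :
    volume {α : ℝ | A ≤ α ∧ |y - α ^ m| ≤ U} ≤ ENNReal.ofReal (2 * U / A ^ (m - 1)) := by
  refine (Real.volume_le_diam _).trans ?_
  apply EMetric.diam_le
  intro u hu v hv
  rw [edist_dist]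
  apply ENNReal.ofReal_le_ofReal
  obtain ⟨hu1, hu2⟩ := hu
  obtain ⟨hv1, hv2⟩ := hv
  have key : ∀ u v : ℝ, A ≤ u → A ≤ v → |y - u ^ m| ≤ U → |y - v ^ m| ≤ U → u ≤ v →
      v - u ≤ 2 * U / A ^ (m - 1) := by
    intro u v hu1 hv1 hu2 hv2 huv
    rw [le_div_iff₀ (by positivity)]
    obtain ⟨a1, a2⟩ := abs_le.mp hu2
    obtain ⟨a3, a4⟩ := abs_le.mp hv2
    have hu0 : 0 ≤ u := by linarith
    have hv0 : 0 ≤ v := by linarith
    obtain ⟨k, rfl⟩ : ∃ k, m = k + 1 := ⟨m - 1, by omega⟩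
    rw [Nat.add_sub_cancel]
    have h1 : u ^ k ≤ v ^ k := by gcongr
    have h2 : A ^ k ≤ v ^ k := by gcongr
    have h3 : (v - u) * A ^ k ≤ (v - u) * v ^ k := by
      have : 0 ≤ v - u := by linarith
      gcongr
    have h4 : (v - u) * v ^ k ≤ v ^ (k + 1) - u ^ (k + 1) := by
      rw [pow_succ, pow_succ]
      nlinarith
    linarith
  rw [Real.dist_eq]
  rcases le_total u v with h | h
  · rw [abs_sub_comm, abs_of_nonneg (by linarith)]
    exact key u v hu1 hv1 hu2 hv2 h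
  · rw [abs_of_nonneg (by linarith)]
    exact key v u hv1 hu1 hv2 hu2 h

/-- finitely many pairs -/
theorem vol_union {A : ℝ} (hA : 1 ≤ A) {m : ℕ} (hm : 1 ≤ m) (U : ℕ) (P : Finset (ℤ × ℤ)) (E : Set ℝ)
    (hE : ∀ α ∈ E, A ≤ α ∧ ∃ v ∈ P, |(v.2 : ℝ) - α ^ m| ≤ U) :
    volume E ≤ ENNReal.ofReal (P.card * (2 * U / A ^ (m - 1))) := by
  have hsub : E ⊆ ⋃ v ∈ P, {α : ℝ | A ≤ α ∧ |(v.2 : ℝ) - α ^ m| ≤ U} := by
    intro α hα
    obtain ⟨h1, v, hv, h2⟩ := hE α hα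
    rw [mem_iUnion₂]
    exact ⟨v, hv, h1, h2⟩
  refine (measure_mono hsub).trans ((measure_biUnion_finset_le _ _).trans ?_)
  refine (Finset.sum_le_sum fun v _ => vol_near hA hm U (v.2 : ℝ)).trans ?_
  rw [Finset.sum_const, nsmul_eq_mul, ENNReal.ofReal_mul (Nat.cast_nonneg _), ENNReal.ofReal_natCast]

end Pool.Agent.L5helper15.MP
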