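import Pool.Agent.L5helper15.MP.Count
import Pool.Agent.L5helper15.MP.Meas

set_option autoImplicit false

/-! # Borel-Cantelli -/

namespace Pool.Agent.L5helper15.MP

open Filter MeasureTheory
open Pool.Agent.N741.PB (Pair ISol)
open Pool.Agent.L5helper15.NL (ChunkAt pair_mono)

/-- the exceptional set of level `m` -/
def Exc (a g κ : ℝ) (U m : ℕ) : Set ℝ := {α : ℝ | Real.exp a ≤ α ∧ α ≤ Real.exp g ∧
  ∃ n : ℕ, n ≤ m ∧ ∃ x y : ℤ, |(x : ℝ) - α ^ n| ≤ U ∧ |(y : ℝ) - α ^ m| ≤ U ∧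
    Pair 2 (Real.exp ((2 * Real.exp g ^ m) ^ κ)) x y}

theorem near_finite (A b : ℝ) (U n m : ℕ) (W : ℝ) (hA : 0 ≤ A) :
    {v : ℤ × ℤ | NearPow A b U n m W v.1 v.2}.Finite := by
  set K : ℤ := ⌈b ^ n + b ^ m + U⌉ with hK
  have key : ∀ v : ℤ × ℤ, NearPow A b U n m W v.1 v.2 → |(v.1 : ℝ)| ≤ K ∧ |(v.2 : ℝ)| ≤ K := by
    rintro ⟨x, y⟩ ⟨α, h1, h2, h3, h4, -⟩
    simp only at h3 h4 ⊢
    have h0 : 0 ≤ α := hA.trans h1
    have hn : α ^ n ≤ b ^ n := pow_le_pow_left₀ h0 h2 n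
    have hm : α ^ m ≤ b ^ m := pow_le_pow_left₀ h0 h2 m
    have hn0 : 0 ≤ α ^ n := by positivity
    have hm0 : 0 ≤ α ^ m := by positivity
    have h5 := Int.le_ceil (b ^ n + b ^ m + U)
    obtain ⟨c1, c2⟩ := abs_le.mp h3
    obtain ⟨c3, c4⟩ := abs_le.mp h4
    constructor
    · rw [abs_le]; constructor <;> linarith
    · rw [abs_le]; constructor <;> linarith
  refine ((Set.finite_Icc (-K) K).prod (Set.finite_Icc (-K) K)).subset ?_
  intro v hv
  obtain ⟨h1, h2⟩ := key v hv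
  obtain ⟨a1, a2⟩ := abs_le.mp h1
  obtain ⟨a3, a4⟩ := abs_le.mp h2
  rw [Set.mem_prod, Set.mem_Icc, Set.mem_Icc]
  exact ⟨⟨by exact_mod_cast a1, by exact_mod_cast a2⟩, ⟨by exact_mod_cast a3, by exact_mod_cast a4⟩⟩

theorem exc_vol {a g κ M : ℝ} (ha : 0 ≤ a) {U m : ℕ} (hm : 1 ≤ m) (hM : 0 ≤ M)
    (h : ∀ n : ℕ, n ≤ m → ∀ P : Finset (ℤ × ℤ),
      (∀ v ∈ P, NearPow (Real.exp a) (Real.exp g) U n m (Real.exp ((2 * Real.exp g ^ m) ^ κ)) v.1 v.2) →
      (P.card : ℝ) ≤ M) :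
    volume (Exc a g κ U m) ≤ ENNReal.ofReal ((m + 1) * (M * (2 * U / Real.exp a ^ (m - 1)))) := by
  classical
  have hfin : ∀ n : ℕ, {v : ℤ × ℤ | NearPow (Real.exp a) (Real.exp g) U n m
      (Real.exp ((2 * Real.exp g ^ m) ^ κ)) v.1 v.2}.Finite := fun n =>
    near_finite _ _ _ _ _ _ (Real.exp_pos a).le
  set F : ℕ → Set ℝ := fun n => {α : ℝ | Real.exp a ≤ α ∧ ∃ v ∈ (hfin n).toFinset, |(v.2 : ℝ) - α ^ m| ≤ U}
    with hF
  have hsub : Exc a g κ U m ⊆ ⋃ n ∈ Finset.range (m + 1), F n := by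
    rintro α ⟨h1, h2, n, hn, x, y, h3, h4, h5⟩
    rw [Set.mem_iUnion₂]
    refine ⟨n, Finset.mem_range.mpr (by omega), h1, (x, y), ?_, h4⟩
    rw [Set.Finite.mem_toFinset]
    exact ⟨α, h1, h2, h3, h4, h5⟩
  refine (measure_mono hsub).trans ((measure_biUnion_finset_le _ _).trans ?_)
  have hone : ∀ n ∈ Finset.range (m + 1), volume (F n) ≤ ENNReal.ofReal (M * (2 * U / Real.exp a ^ (m - 1))) := by
    intro n hn
    rw [Finset.mem_range] at hn
    refine (vol_union (Real.one_le_exp ha) hm U (hfin n).toFinset (F n) (fun α hα => hα)).trans ?_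
    apply ENNReal.ofReal_le_ofReal
    have : ((hfin n).toFinset.card : ℝ) ≤ M := h n (by omega) _ (by
      intro v hv
      rw [Set.Finite.mem_toFinset] at hv
      exact hv)
    gcongr
  refine (Finset.sum_le_sum hone).trans ?_
  have e : ((m + 1 : ℕ) : ENNReal) = ENNReal.ofReal ((m : ℝ) + 1) := by
    rw [← ENNReal.ofReal_natCast]
    push_cast
    rfl
  rw [Finset.sum_const, Finset.card_range, nsmul_eq_mul, e, ← ENNReal.ofReal_mul (by positivity)]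

theorem metric : ∃ κ : ℝ, 0 < κ ∧ ∀ᵐ α : ℝ, 1 < α → ∀ U : ℕ, ∃ m₁ : ℕ, ∀ m n : ℕ, m₁ ≤ m → n ≤ m →
    ∀ x y : ℤ, |(x : ℝ) - α ^ n| ≤ U → |(y : ℝ) - α ^ m| ≤ U →
      ¬ Pair 2 (Real.exp ((2 * α ^ m) ^ κ)) x y := by
  obtain ⟨κ, η, ρ, hκ, hη, hρ, hcount⟩ := count
  refine ⟨κ, hκ, ?_⟩
  have step : ∀ a : ℝ, 0 < a → ∀ U : ℕ, ∀ᵐ α : ℝ, ∀ᶠ m : ℕ in atTop, α ∉ Exc a ((1 + η) * a) κ U m := by
    intro a ha U
    obtain ⟨m₀, hm₀⟩ := hcount a ha U
    have hsum : ∑' i : ℕ, volume (Exc a ((1 + η) * a) κ U (i + (m₀ + 1))) ≠ ⊤ := by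
      have hb : ∀ i : ℕ, volume (Exc a ((1 + η) * a) κ U (i + (m₀ + 1))) ≤
          ENNReal.ofReal (2 * U * Real.exp a * (((i + (m₀ + 1) : ℕ) : ℝ) + 1) *
            Real.exp (-(ρ * a)) ^ (i + (m₀ + 1))) := by
        intro i
        obtain ⟨m, hm⟩ : ∃ m : ℕ, m = i + (m₀ + 1) := ⟨_, rfl⟩
        rw [← hm]
        have hm1 : 1 ≤ m := by omega
        refine (exc_vol ha.le hm1 (Real.exp_pos _).le
          (fun n hn P hP => hm₀ m n (by omega) hn P hP)).trans (le_of_eq ?_)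
        congr 1
        obtain ⟨k, rfl⟩ : ∃ k, m = k + 1 := ⟨m - 1, by omega⟩
        rw [Nat.add_sub_cancel]
        have e1 : Real.exp a ^ k = Real.exp (a * k) := by
          rw [← Real.exp_nat_mul]; congr 1; ring
        have e2 : Real.exp (-(ρ * a)) ^ (k + 1) = Real.exp (-(ρ * a) * (k + 1)) := by
          rw [← Real.exp_nat_mul]; congr 1; push_cast; ring
        rw [e1, e2]
        have e3 : Real.exp ((1 - ρ) * a * ((k + 1 : ℕ) : ℝ)) = Real.exp a * Real.exp (-(ρ * a) * (k + 1)) *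
            Real.exp (a * k) := by
          rw [← Real.exp_add, ← Real.exp_add]; congr 1; push_cast; ring
        rw [e3]
        have : Real.exp (a * k) ≠ 0 := (Real.exp_pos _).ne'
        field_simp
      refine ne_top_of_le_ne_top ?_ (ENNReal.tsum_le_tsum hb)
      apply Summable.tsum_ofReal_ne_top
      have hr : ‖Real.exp (-(ρ * a))‖ < 1 := by
        rw [Real.norm_eq_abs, abs_of_pos (Real.exp_pos _)]
        have h0 : 0 < ρ * a := by positivity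
        rw [← Real.exp_zero]
        exact Real.exp_lt_exp.mpr (by linarith)
      have s1 : Summable (fun m : ℕ => 2 * U * Real.exp a * ((m : ℝ) + 1) * Real.exp (-(ρ * a)) ^ m) := by
        have t1 := summable_pow_mul_geometric_of_norm_lt_one 1 hr
        have t2 := summable_pow_mul_geometric_of_norm_lt_one 0 hr
        have t3 := (t1.add t2).mul_left (2 * U * Real.exp a)
        refine t3.congr (fun m => ?_)
        ring
      exact (summable_nat_add_iff (m₀ + 1)).mpr s1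
    have hae := ae_eventually_notMem hsum
    filter_upwards [hae] with α hα
    rw [eventually_atTop] at hα ⊢
    obtain ⟨i₀, hi₀⟩ := hα
    refine ⟨i₀ + (m₀ + 1), fun m hm => ?_⟩
    have := hi₀ (m - (m₀ + 1)) (by omega)
    rwa [Nat.sub_add_cancel (by omega)] at this
  have all : ∀ᵐ α : ℝ, ∀ (k : ℤ) (U : ℕ), ∀ᶠ m : ℕ in atTop,
      α ∉ Exc ((1 + η) ^ k) ((1 + η) * (1 + η) ^ k) κ U m := by
    rw [ae_all_iff]
    intro k
    rw [ae_all_iff]
    intro U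
    exact step _ (by positivity) U
  filter_upwards [all] with α hα h1 U
  obtain ⟨k, hk1, hk2⟩ := exists_mem_Ico_zpow (x := Real.log α) (y := 1 + η) (Real.log_pos h1) (by linarith)
  obtain ⟨m₁, hm₁⟩ := eventually_atTop.mp (hα k U)
  refine ⟨m₁, fun m n hm hn x y hx hy hP => hm₁ m hm ?_⟩
  have hα0 : 0 < α := by linarith
  have hup : α ≤ Real.exp ((1 + η) * (1 + η) ^ k) := by
    rw [← Real.log_le_iff_le_exp hα0]
    rw [zpow_add₀ (by positivity), zpow_one, mul_comm] at hk2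
    exact hk2.le
  refine ⟨(Real.le_log_iff_exp_le hα0).mp hk1, hup, n, hn, x, y, hx, hy, pair_mono hP ?_⟩
  apply Real.exp_le_exp.mpr
  apply Real.rpow_le_rpow (by positivity) _ hκ.le
  gcongr

end Pool.Agent.L5helper15.MP
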