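import Pool.Agent.L5helper15.MP.Far

set_option autoImplicit false

/-! # Bases near powers of a real number: similar sizes -/

namespace Pool.Agent.L5helper15.MP

open Finset Filter
open Pool.Agent.N741.PB (Pair ISol)
open Pool.Agent.L5helper15.NL (ChunkAt pair_mono curve)

/-- the mean value inequality for powers -/
theorem rpow_diff {s u v : ℝ} (hs : 1 ≤ s) (hu : 0 ≤ u) (huv : u ≤ v) (hv : 0 < v) :
    v ^ s - u ^ s ≤ s * v ^ (s - 1) * (v - u) := by
  have h1 : -1 ≤ (u - v) / v := by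
    rw [le_div_iff₀ hv]; linarith
  have h2 := one_add_mul_self_le_rpow_one_add h1 hs
  have h3 : 1 + (u - v) / v = u / v := by field_simp; ring
  rw [h3, Real.div_rpow hu hv.le, le_div_iff₀ (by positivity)] at h2
  have h4 : v ^ s = v ^ (s - 1) * v := by
    have := Real.rpow_add hv (s - 1) 1
    rw [Real.rpow_one] at this
    rw [← this]; congr 1; ring
  have h5 : (1 + s * ((u - v) / v)) * v ^ s = v ^ s - s * v ^ (s - 1) * (v - u) := by
    rw [h4]; field_simp; ring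
  linarith

theorem rpow_diff_abs {s u v M : ℝ} (hs : 1 ≤ s) (hu : 0 < u) (hv : 0 < v) (huM : u ≤ M) (hvM : v ≤ M) :
    |v ^ s - u ^ s| ≤ s * M ^ (s - 1) * |v - u| := by
  have key : ∀ a b : ℝ, 0 < a → 0 < b → b ≤ M → a ≤ b → |b ^ s - a ^ s| ≤ s * M ^ (s - 1) * |b - a| := by
    intro a b ha hb hbM hab
    have h0 : a ^ s ≤ b ^ s := Real.rpow_le_rpow ha.le hab (by linarith)
    rw [abs_of_nonneg (by linarith), abs_of_nonneg (by linarith)]
    refine (rpow_diff hs ha.le hab hb).trans ?_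
    have : b ^ (s - 1) ≤ M ^ (s - 1) := Real.rpow_le_rpow hb.le hbM (by linarith)
    have h2 : 0 ≤ b - a := by linarith
    gcongr
  rcases le_total u v with h | h
  · exact key u v hu hv hvM h
  · rw [abs_sub_comm, abs_sub_comm v u]
    exact key v u hv hu huM h

/-- second differences of powers -/
theorem second_diff {s x : ℝ} (hs : 1 ≤ s) (hs2 : s ≤ 3 / 2) (hx : 1 ≤ x) :
    |(x + 2) ^ s - 2 * (x + 1) ^ s + x ^ s| ≤ x ^ (-(1 / 2) : ℝ) := by
  -- the first difference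
  set φ : ℝ → ℝ := fun t => (t + 1) ^ s - t ^ s with hφ
  have hder : ∀ t : ℝ, 0 < t → HasDerivAt φ (s * (t + 1) ^ (s - 1) - s * t ^ (s - 1)) t := by
    intro t ht
    have h1 : HasDerivAt (fun t : ℝ => (t + 1) ^ s) (s * (t + 1) ^ (s - 1)) t := by
      have := (Real.hasDerivAt_rpow_const (x := t + 1) (p := s) (Or.inl (by positivity))).comp_add_const t 1
      exact this
    have h2 : HasDerivAt (fun t : ℝ => t ^ s) (s * t ^ (s - 1)) t :=
      Real.hasDerivAt_rpow_const (Or.inl ht.ne')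
    exact h1.sub h2
  obtain ⟨c, ⟨hc1, hc2⟩, hc⟩ := exists_hasDerivAt_eq_slope φ
    (fun t => s * (t + 1) ^ (s - 1) - s * t ^ (s - 1)) (show x < x + 1 by linarith)
    (fun t ht => (hder t (by linarith [ht.1])).continuousAt.continuousWithinAt)
    (fun t ht => hder t (by linarith [ht.1]))
  have hc0 : 0 < c := by linarith
  have e1 : (x + 2) ^ s - 2 * (x + 1) ^ s + x ^ s = φ (x + 1) - φ x := by
    simp only [hφ]
    rw [show x + 1 + 1 = x + 2 by ring]; ring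
  have e2 : φ (x + 1) - φ x = s * (c + 1) ^ (s - 1) - s * c ^ (s - 1) := by
    rw [hc]; simp
  rw [e1, e2]
  -- the second step
  have hder2 : ∀ t : ℝ, 0 < t → HasDerivAt (fun t : ℝ => t ^ (s - 1)) ((s - 1) * t ^ (s - 1 - 1)) t := by
    intro t ht
    exact Real.hasDerivAt_rpow_const (Or.inl ht.ne')
  obtain ⟨d, ⟨hd1, hd2⟩, hd⟩ := exists_hasDerivAt_eq_slope (fun t : ℝ => t ^ (s - 1))
    (fun t => (s - 1) * t ^ (s - 1 - 1)) (show c < c + 1 by linarith)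
    (fun t ht => (hder2 t (by linarith [ht.1])).continuousAt.continuousWithinAt)
    (fun t ht => hder2 t (by linarith [ht.1]))
  have hd0 : 0 < d := by linarith
  have e3 : s * (c + 1) ^ (s - 1) - s * c ^ (s - 1) = s * ((s - 1) * d ^ (s - 1 - 1)) := by
    rw [hd]; simp; ring
  rw [e3, abs_of_nonneg (by
    have : 0 ≤ s - 1 := by linarith
    positivity)]
  have h1 : d ^ (s - 1 - 1) ≤ x ^ (-(1 / 2) : ℝ) := by
    calc d ^ (s - 1 - 1) ≤ d ^ (-(1 / 2) : ℝ) :=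
          Real.rpow_le_rpow_of_exponent_le (by linarith) (by linarith)
      _ ≤ x ^ (-(1 / 2) : ℝ) := Real.rpow_le_rpow_of_nonpos (by linarith) (by linarith) (by norm_num)
  have h2 : s * (s - 1) ≤ 1 := by nlinarith
  have h3 : 0 ≤ s * (s - 1) := by nlinarith
  have h4 : 0 < d ^ (s - 1 - 1) := by positivity
  calc s * ((s - 1) * d ^ (s - 1 - 1)) = (s * (s - 1)) * d ^ (s - 1 - 1) := by ring
    _ ≤ 1 * d ^ (s - 1 - 1) := by gcongr
    _ ≤ x ^ (-(1 / 2) : ℝ) := by rw [one_mul]; exact h1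

/-- the theorem on curves for powers -/
theorem curve_pow : ∃ κ : ℝ, 0 < κ ∧ κ ≤ 1 / 4 ∧ ∃ N₀ : ℕ, ∀ N : ℕ, N₀ ≤ N → ∀ s : ℝ, 1 ≤ s → s ≤ 3 / 2 →
    ∀ S : Finset (ℤ × ℤ), (∀ v ∈ S, N ≤ v.1 ∧ v.1 < 2 * N ∧ |(v.2 : ℝ) - (v.1 : ℝ) ^ s| ≤ (N : ℝ) ^ κ ∧
      Pair 2 (Real.exp ((N : ℝ) ^ κ)) v.1 v.2) → (S.card : ℝ) ≤ (N : ℝ) ^ (1 - κ) := by
  obtain ⟨k, hk, N₀, h⟩ := curve (1 / 2) (by norm_num)
  obtain ⟨κ, hκ⟩ : ∃ κ : ℝ, κ = min k (1 / 4) := ⟨_, rfl⟩
  have hκ0 : 0 < κ := by rw [hκ]; positivity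
  have hκk : κ ≤ k := by rw [hκ]; exact min_le_left _ _
  have hκ4 : κ ≤ 1 / 4 := by rw [hκ]; exact min_le_right _ _
  have hev : ∀ᶠ Z : ℝ in atTop, 1 ≤ Z ∧ 2 * Real.log (2 * Z) ≤ Z ^ k := by
    have h1 := (isLittleO_log_rpow_atTop hk).bound (show (0 : ℝ) < 1 / 4 by positivity)
    filter_upwards [h1, eventually_ge_atTop (2 : ℝ)] with Z h2 h3
    rw [Real.norm_of_nonneg (Real.log_nonneg (by linarith)), Real.norm_of_nonneg (by positivity)] at h2
    refine ⟨by linarith, ?_⟩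
    have h4 : Real.log (2 * Z) ≤ 2 * Real.log Z := by
      have := Real.log_le_log (show 0 < 2 * Z by positivity) (show 2 * Z ≤ Z ^ 2 by nlinarith)
      rwa [Real.log_pow] at this
    linarith
  obtain ⟨Z₀, hZ₀⟩ := eventually_atTop.mp hev
  refine ⟨κ, hκ0, hκ4, N₀ + ⌈Z₀⌉₊ + 1, fun N hN s hs hs2 S hS => ?_⟩
  have hNZ : Z₀ ≤ N := (Nat.le_ceil Z₀).trans (by exact_mod_cast (by omega : ⌈Z₀⌉₊ ≤ N))
  obtain ⟨hN1, hNl⟩ := hZ₀ N hNZ
  have hmono : (N : ℝ) ^ κ ≤ (N : ℝ) ^ k := Real.rpow_le_rpow_of_exponent_le hN1 hκk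
  have h1 := h N (by omega) (fun n => (n : ℝ) ^ s) (fun n hn hn2 => by
      have hn1 : (1 : ℝ) ≤ n := by
        have : (N : ℝ) ≤ n := by exact_mod_cast hn
        linarith
      have h2 := second_diff hs hs2 hn1
      push_cast
      refine h2.trans ?_
      exact Real.rpow_le_rpow_of_nonpos (by linarith) (by exact_mod_cast hn) (by norm_num))
    (fun n hn hn2 => by
      have hnN : (N : ℝ) ≤ n := by exact_mod_cast hn
      have hn2N : (n : ℝ) ≤ 2 * N := by exact_mod_cast hn2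
      have hn0 : (0 : ℝ) < n := by linarith
      rw [abs_of_nonneg (by positivity)]
      calc (n : ℝ) ^ s ≤ (2 * (N : ℝ)) ^ s := Real.rpow_le_rpow hn0.le hn2N (by linarith)
        _ ≤ (2 * (N : ℝ)) ^ (2 : ℝ) := Real.rpow_le_rpow_of_exponent_le (by linarith) (by linarith)
        _ = Real.exp (2 * Real.log (2 * N)) := by
            rw [Real.rpow_def_of_pos (by positivity), mul_comm]
        _ ≤ _ := Real.exp_le_exp.mpr hNl) S (fun v hv => by
      obtain ⟨h2, h3, h4, h5⟩ := hS v hv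
      exact ⟨h2, h3, h4.trans hmono, pair_mono h5 (Real.exp_le_exp.mpr hmono)⟩)
  exact h1.trans (Real.rpow_le_rpow_of_exponent_le hN1 (by linarith))

theorem near_count : ∃ κ : ℝ, 0 < κ ∧ κ ≤ 1 / 4 ∧ ∀ U : ℕ, ∃ N₀ : ℝ, ∀ (A b : ℝ) (n m : ℕ) (W : ℝ),
    1 ≤ A → A ≤ b → 1 ≤ n → n ≤ m → (m : ℝ) ≤ (1 + κ / 4) * n → N₀ ≤ A ^ n →
    W ≤ Real.exp ((A ^ n / 4) ^ κ) → ∀ P : Finset (ℤ × ℤ), (∀ v ∈ P, NearPow A b U n m W v.1 v.2) →
    (P.card : ℝ) ≤ (Nat.log 2 ⌊b ^ n + U⌋₊ + 1) * (b ^ n + U) ^ (1 - κ) := by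
  classical
  obtain ⟨κ, hκ0, hκ4, N₁, h⟩ := curve_pow
  refine ⟨κ, hκ0, hκ4, fun U => ?_⟩
  have hev : ∀ᶠ Z : ℝ in atTop, 1 ≤ Z ∧ (U : ℝ) + 2 * U * (4 * Z) ^ (κ / 4) ≤ Z ^ κ := by
    have h1 := (tendsto_rpow_atTop (show 0 < κ / 2 by positivity)).eventually_ge_atTop (9 * (U : ℝ))
    filter_upwards [h1, eventually_ge_atTop (4 : ℝ)] with Z h2 h3
    refine ⟨by linarith, ?_⟩
    have hZ0 : (0 : ℝ) < Z := by linarith
    have h4 : (4 * Z) ^ (κ / 4) ≤ Z ^ (κ / 2) := by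
      calc (4 * Z) ^ (κ / 4) ≤ (Z ^ (2 : ℝ)) ^ (κ / 4) := by
            apply Real.rpow_le_rpow (by positivity) _ (by positivity)
            rw [Real.rpow_two]; nlinarith
        _ = Z ^ (κ / 2) := by rw [← Real.rpow_mul hZ0.le]; congr 1; ring
    have h5 : (1 : ℝ) ≤ Z ^ (κ / 2) := Real.one_le_rpow (by linarith) (by positivity)
    have hU : (0 : ℝ) ≤ U := Nat.cast_nonneg U
    calc (U : ℝ) + 2 * U * (4 * Z) ^ (κ / 4) ≤ U * Z ^ (κ / 2) + 2 * U * Z ^ (κ / 2) := by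
          gcongr
          exact le_mul_of_one_le_right hU h5
      _ = (3 * U) * Z ^ (κ / 2) := by ring
      _ ≤ Z ^ (κ / 2) * Z ^ (κ / 2) := by
          gcongr
          linarith
      _ = Z ^ κ := by rw [← Real.rpow_add hZ0]; congr 1; ring
  obtain ⟨Z₀, hZ₀⟩ := eventually_atTop.mp hev
  refine ⟨4 * (|Z₀| + N₁ + U + 1), fun A b n m W hA1 hAb hn hnm hm hAn hW P hP => ?_⟩
  have hb1 : 1 ≤ b := hA1.trans hAb
  have hn0 : (0 : ℝ) < n := by exact_mod_cast hn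
  have hU0 : (0 : ℝ) ≤ U := Nat.cast_nonneg U
  have hN₁0 : (0 : ℝ) ≤ N₁ := Nat.cast_nonneg N₁
  set s : ℝ := (m : ℝ) / n with hs
  have hs1 : 1 ≤ s := by
    rw [hs, le_div_iff₀ hn0, one_mul]; exact_mod_cast hnm
  have hs2 : s ≤ 1 + κ / 4 := by rw [hs, div_le_iff₀ hn0]; exact hm
  have hs3 : s ≤ 3 / 2 := by linarith
  -- the size of `x`
  have hxlow : ∀ v ∈ P, A ^ n / 2 ≤ (v.1 : ℝ) ∧ (v.1 : ℝ) ≤ b ^ n + U := by
    intro v hv
    obtain ⟨α, h1, h2, h3, -, -⟩ := hP v hv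
    obtain ⟨h4, h5⟩ := abs_le.mp h3
    have h6 : A ^ n ≤ α ^ n := by gcongr
    have h7 : α ^ n ≤ b ^ n := by
      have : 0 ≤ α := by linarith
      gcongr
    have := abs_nonneg Z₀
    constructor
    · linarith
    · linarith
  set J := range (Nat.log 2 ⌊b ^ n + U⌋₊ + 1) with hJ
  set Pj : ℕ → Finset (ℤ × ℤ) := fun j => P.filter (fun v => Nat.log 2 v.1.toNat = j) with hPj
  have hAn1 : 1 ≤ A ^ n := one_le_pow₀ hA1
  have hcover : P ⊆ J.biUnion Pj := by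
    intro v hv
    obtain ⟨h1, h2⟩ := hxlow v hv
    rw [mem_biUnion]
    refine ⟨Nat.log 2 v.1.toNat, ?_, mem_filter.mpr ⟨hv, rfl⟩⟩
    rw [hJ, mem_range, Nat.lt_succ_iff]
    apply Nat.log_mono_right
    apply Nat.le_floor
    have hv0 : (0 : ℤ) ≤ v.1 := by
      have : (0 : ℝ) ≤ (v.1 : ℝ) := by linarith
      exact_mod_cast this
    have : ((v.1.toNat : ℕ) : ℝ) = (v.1 : ℝ) := by
      have := Int.toNat_of_nonneg hv0
      exact_mod_cast this
    rw [this]; exact h2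
  have hPjc : ∀ j ∈ J, ((Pj j).card : ℝ) ≤ (b ^ n + U) ^ (1 - κ) := by
    intro j _
    rcases (Pj j).eq_empty_or_nonempty with h0 | ⟨w, hw⟩
    · rw [h0, card_empty, Nat.cast_zero]; positivity
    have hdy : ∀ v ∈ Pj j, ((2 ^ j : ℕ) : ℤ) ≤ v.1 ∧ v.1 < 2 * ((2 ^ j : ℕ) : ℤ) := by
      intro v hv
      simp only [hPj, mem_filter] at hv
      obtain ⟨hv, hj⟩ := hv
      obtain ⟨h1, -⟩ := hxlow v hv
      have hv0 : (0 : ℤ) < v.1 := by
        have : (0 : ℝ) < (v.1 : ℝ) := by linarith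
        exact_mod_cast this
      have hne : v.1.toNat ≠ 0 := by omega
      have h2 := Nat.pow_log_le_self 2 hne
      have h3 := Nat.lt_pow_succ_log_self (b := 2) (by norm_num) v.1.toNat
      rw [hj] at h2 h3
      rw [pow_succ] at h3
      constructor
      · have : ((2 ^ j : ℕ) : ℤ) ≤ (v.1.toNat : ℤ) := by exact_mod_cast h2
        omega
      · have : (v.1.toNat : ℤ) < ((2 ^ j * 2 : ℕ) : ℤ) := by exact_mod_cast h3
        push_cast at this ⊢
        omega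
    set N : ℕ := 2 ^ j with hN
    have hwP : w ∈ P := (mem_filter.mp hw).1
    obtain ⟨hw1, hw2⟩ := hxlow w hwP
    obtain ⟨hd1, hd2⟩ := hdy w hw
    have hd1' : (N : ℝ) ≤ w.1 := by exact_mod_cast hd1
    have hd2' : (w.1 : ℝ) < 2 * N := by exact_mod_cast hd2
    have hNlow : A ^ n / 4 ≤ N := by linarith
    have habs := abs_nonneg Z₀
    have hNZ : Z₀ ≤ N := by
      have := le_abs_self Z₀
      linarith
    have hNN : N₁ ≤ N := by
      have : (N₁ : ℝ) ≤ N := by linarith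
      exact_mod_cast this
    have hNU : (U : ℝ) ≤ N := by linarith
    obtain ⟨hN1, hNκ⟩ := hZ₀ N hNZ
    have hN0 : (0 : ℝ) < N := by linarith
    have h1 := h N hNN s hs1 hs3 (Pj j) (by
      intro v hv
      obtain ⟨g1, g2⟩ := hdy v hv
      have hvP : v ∈ P := (mem_filter.mp hv).1
      obtain ⟨α, a1, a2, a3, a4, a5⟩ := hP v hvP
      refine ⟨g1, g2, ?_, pair_mono a5 (hW.trans ?_)⟩
      · have g1' : (N : ℝ) ≤ v.1 := by exact_mod_cast g1
        have g2' : (v.1 : ℝ) < 2 * N := by exact_mod_cast g2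
        have hα0 : 0 < α := by linarith
        have hX : (α ^ n) ^ s = α ^ m := by
          rw [← Real.rpow_natCast, ← Real.rpow_mul hα0.le, ← Real.rpow_natCast]
          congr 1
          rw [hs]; field_simp
        obtain ⟨b1, b2⟩ := abs_le.mp a3
        have hXpos : 0 < α ^ n := by positivity
        have h2 := rpow_diff_abs (M := 4 * (N : ℝ)) hs1 hXpos (show (0 : ℝ) < v.1 by linarith)
          (by linarith) (by linarith)
        rw [hX] at h2
        have h3 : |(v.1 : ℝ) ^ s - α ^ m| ≤ 2 * U * (4 * (N : ℝ)) ^ (κ / 4) := by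
          refine h2.trans ?_
          have h4 : (4 * (N : ℝ)) ^ (s - 1) ≤ (4 * (N : ℝ)) ^ (κ / 4) :=
            Real.rpow_le_rpow_of_exponent_le (by linarith) (by linarith)
          calc s * (4 * (N : ℝ)) ^ (s - 1) * |(v.1 : ℝ) - α ^ n| ≤
              2 * (4 * (N : ℝ)) ^ (κ / 4) * U := by
                gcongr
                linarith
            _ = _ := by ring
        calc |(v.2 : ℝ) - (v.1 : ℝ) ^ s| ≤ |(v.2 : ℝ) - α ^ m| + |α ^ m - (v.1 : ℝ) ^ s| := abs_sub_le _ _ _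
          _ ≤ U + 2 * U * (4 * (N : ℝ)) ^ (κ / 4) := by
              rw [abs_sub_comm (α ^ m)]
              gcongr
          _ ≤ (N : ℝ) ^ κ := hNκ
      · rw [Real.exp_le_exp]
        apply Real.rpow_le_rpow (by positivity) hNlow hκ0.le)
    refine h1.trans ?_
    apply Real.rpow_le_rpow hN0.le _ (by linarith)
    linarith
  have h1 : (P.card : ℝ) ≤ ∑ j ∈ J, ((Pj j).card : ℝ) := by
    exact_mod_cast (card_le_card hcover).trans card_biUnion_le
  refine h1.trans ((sum_le_sum hPjc).trans ?_)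
  rw [sum_const, hJ, card_range, nsmul_eq_mul]
  push_cast
  exact le_rfl

end Pool.Agent.L5helper15.MP
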